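import Pool.Agent.W355.UN.Stm

/-! UN-COND (helper803): sum of the logarithms of the conductors. -/

set_option autoImplicit false

namespace Pool.Agent.W803.UN

open Pool.Agent.W355.UN

theorem fac_lcm {ι : Type*} (s : Finset ι) (f : ι → ℕ) (hf : ∀ i, f i ≠ 0) (p : ℕ) :
    s.lcm f ≠ 0 ∧ (s.lcm f).factorization p = s.sup (fun i => (f i).factorization p) := by
  classical
  induction s using Finset.induction_on with
  | empty => simp
  | insert a s ha ih =>
    obtain ⟨ih1, ih2⟩ := ih
    rw [Finset.lcm_insert, Finset.sup_insert, ← ih2]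
    refine ⟨Nat.lcm_ne_zero (hf a) ih1, ?_⟩
    have := Nat.factorization_lcm (hf a) ih1
    change (Nat.lcm (f a) (s.lcm f)).factorization p = _
    rw [this]
    rfl

theorem log_eq (n F : ℕ) (hn : n ≠ 0) (hF : F ≠ 0) (h : n ∣ F) :
    Real.log n = ∑ p ∈ F.primeFactors, (n.factorization p : ℝ) * Real.log p := by
  rw [Real.log_nat_eq_sum_factorization]
  refine Finsupp.sum_of_support_subset _ ?_ _ ?_
  · rw [Nat.support_factorization]
    exact Nat.primeFactors_mono h hF
  · intro i _
    simp

theorem cond : S_COND := by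
  intro M _ G _
  set f : G → ℕ := fun χ => (χ : DirichletCharacter ℂ M).conductor with hf
  have hf0 : ∀ χ, f χ ≠ 0 := fun χ => (χ : DirichletCharacter ℂ M).conductor_ne_zero
  have hF0 : (Finset.univ.lcm f) ≠ 0 := (fac_lcm Finset.univ f hf0 2).1
  have hdvd : ∀ χ, f χ ∣ Finset.univ.lcm f := fun χ => Finset.dvd_lcm (Finset.mem_univ χ)
  have key : ∀ p : ℕ, (Fintype.card G) * ((Finset.univ.lcm f).factorization p) ≤
      2 * ∑ χ, (f χ).factorization p := by
    intro p
    obtain ⟨χ0, _, h0⟩ := Finset.exists_mem_eq_sup (Finset.univ : Finset G) ⟨1, Finset.mem_univ _⟩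
      (fun i => (f i).factorization p)
    have h1 : (Finset.univ.lcm f).factorization p = (f χ0).factorization p := by
      rw [(fac_lcm Finset.univ f hf0 p).2, h0]
    have h2 : ∀ χ : G, (f χ0).factorization p ≤
        (f χ).factorization p + (f (χ * χ0)).factorization p := by
      intro χ
      have h3 : f χ0 ∣ (f χ).lcm (f (χ * χ0)) := by
        have h4 := DirichletCharacter.conductor_mul_dvd_lcm_conductor
          ((χ : DirichletCharacter ℂ M)⁻¹) ((χ * χ0 : G) : DirichletCharacter ℂ M)
        rw [DirichletCharacter.conductor_inv] at h4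
        have h5 : (χ : DirichletCharacter ℂ M)⁻¹ * ((χ * χ0 : G) : DirichletCharacter ℂ M) = χ0 := by
          rw [Subgroup.coe_mul, inv_mul_cancel_left]
        rw [h5] at h4
        exact h4
      have h6 := (Nat.factorization_le_iff_dvd (hf0 χ0)
        (Nat.lcm_ne_zero (hf0 χ) (hf0 (χ * χ0)))).2 h3 p
      rw [Nat.factorization_lcm (hf0 χ) (hf0 (χ * χ0))] at h6
      refine h6.trans ?_
      rw [Finsupp.sup_apply]
      exact max_le (Nat.le_add_right _ _) (Nat.le_add_left _ _)
    have h7 : ∑ χ, (f (χ * χ0)).factorization p = ∑ χ, (f χ).factorization p :=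
      Fintype.sum_equiv (Equiv.mulRight χ0) _ _ (fun χ => rfl)
    calc Fintype.card G * ((Finset.univ.lcm f).factorization p)
        = ∑ _χ : G, (f χ0).factorization p := by
          rw [Finset.sum_const, Finset.card_univ, smul_eq_mul, h1]
      _ ≤ ∑ χ : G, ((f χ).factorization p + (f (χ * χ0)).factorization p) :=
          Finset.sum_le_sum fun χ _ => h2 χ
      _ = 2 * ∑ χ, (f χ).factorization p := by
          rw [Finset.sum_add_distrib, h7, two_mul]
  have e1 : ∑ χ : G, Real.log (f χ : ℝ) = ∑ p ∈ (Finset.univ.lcm f).primeFactors,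
      (∑ χ : G, ((f χ).factorization p : ℝ)) * Real.log p := by
    rw [Finset.sum_congr rfl fun χ _ => log_eq (f χ) _ (hf0 χ) hF0 (hdvd χ), Finset.sum_comm]
    refine Finset.sum_congr rfl fun p _ => ?_
    rw [Finset.sum_mul]
  have e2 := log_eq _ _ hF0 hF0 (dvd_refl (Finset.univ.lcm f))
  change (Fintype.card G : ℝ) / 2 * Real.log ((Finset.univ.lcm f : ℕ) : ℝ) ≤
    ∑ χ : G, Real.log (f χ : ℝ)
  rw [e1, e2, Finset.mul_sum]
  refine Finset.sum_le_sum fun p hp => ?_
  have hp1 : (0 : ℝ) ≤ Real.log p := Real.log_natCast_nonneg p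
  have hk : (Fintype.card G : ℝ) * ((Finset.univ.lcm f).factorization p : ℝ) ≤
      2 * ∑ χ : G, ((f χ).factorization p : ℝ) := by
    exact_mod_cast key p
  calc (Fintype.card G : ℝ) / 2 * (((Finset.univ.lcm f).factorization p : ℝ) * Real.log p)
      = ((Fintype.card G : ℝ) * ((Finset.univ.lcm f).factorization p : ℝ)) / 2 * Real.log p := by
        ring
    _ ≤ (2 * ∑ χ : G, ((f χ).factorization p : ℝ)) / 2 * Real.log p := by
        apply mul_le_mul_of_nonneg_right _ hp1
        linarith
    _ = (∑ χ : G, ((f χ).factorization p : ℝ)) * Real.log p := by ring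

end Pool.Agent.W803.UN
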